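import Pool.Agent.Helper61.Tri.Goals

/-!
# MP_5b3c48_co, packet E4
-/

set_option autoImplicit false

open Finset

namespace Pool.Agent.Helper89.Tri

open Pool.Agent.Helper61.Tri

open scoped Classical

theorem e4 : EPTools → Link → Interleave → E4 := by
  intro tools link inter s hs V _ G m x w hm hgrid c hc g h hg hh hgh hgc hhc
  have hsm : s < m := by omega
  -- basic inequalities
  have hxw : ∀ i < m, ∀ j < m, x i ≠ w j := fun i hi j hj => (hgrid.adj i hi j hj).ne
  have hxc : ∀ i < m, x i ≠ c := fun i hi => (hc i hi).1.ne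
  have hwc : ∀ i < m, w i ≠ c := fun i hi => (hc i hi).2.ne
  have hgx : ∀ i < m, ∀ j < m, ∀ l < m, g i j ≠ x l := fun i hi j hj l hl =>
    hg.nx i hi j hj l hl 0 (by omega)
  have hhx : ∀ i < m, ∀ j < m, ∀ l < m, h i j ≠ x l := fun i hi j hj l hl =>
    hh.nx i hi j hj l hl 0 (by omega)
  have hgw : ∀ i < m, ∀ j < m, ∀ l < m, g i j ≠ w l := fun i hi j hj l hl =>
    hg.nw i hi j hj 0 (by omega) l hl
  have hhw : ∀ i < m, ∀ j < m, ∀ l < m, h i j ≠ w l := fun i hi j hj l hl =>
    hh.nw i hi j hj 0 (by omega) l hl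
  have hgc' : ∀ i < m, ∀ j < m, g i j ≠ c := fun i hi j hj =>
    hgc i hi j hj 0 (by omega) 0 (by omega)
  have hhc' : ∀ i < m, ∀ j < m, h i j ≠ c := fun i hi j hj =>
    hhc i hi j hj 0 (by omega) 0 (by omega)
  -- the first path
  let S0 : Finset V := (range s).image x ∪ (range (s - 1)).image w ∪
    (range (s - 1)).image (fun i => g i i) ∪ (range (s - 1)).image (fun i => h (i + 1) i)
  have hS0 : ∀ v, v ∈ S0 ↔ (∃ i < s, x i = v) ∨ (∃ i < s - 1, w i = v) ∨
      (∃ i < s - 1, g i i = v) ∨ (∃ i < s - 1, h (i + 1) i = v) := by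
    intro v
    simp only [S0, mem_union, mem_image, mem_range, or_assoc]
  have e0 : EP G (2 * (s - 1)) (x 0) (x (s - 1)) S0 := by
    refine inter V G (s - 1) x w (fun i => g i i) (fun i => h (i + 1) i) S0 ?_ ?_ ?_ ?_ ?_ ?_ ?_ ?_ ?_
    · intro i hi
      exact ⟨hgrid.adj i (by omega) i (by omega), hg.adjx i (by omega) i (by omega),
        hg.adjw i (by omega) i (by omega), (hgrid.adj (i + 1) (by omega) i (by omega)).symm,
        hh.adjw (i + 1) (by omega) i (by omega), hh.adjx (i + 1) (by omega) i (by omega)⟩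
    · intro i hi j hj hij
      exact hgrid.injx i (by omega) j (by omega) hij
    · intro i hi j hj hij
      exact hgrid.injw i (by omega) j (by omega) hij
    · intro i hi j hj hij
      by_contra hne
      exact hg.di i (by omega) i (by omega) j (by omega) j (by omega) hne hne hij
    · intro i hi j hj hij
      by_contra hne
      exact hh.di (i + 1) (by omega) i (by omega) (j + 1) (by omega) j (by omega)
        (by omega) hne hij
    · intro i hi j hj
      exact ⟨hxw i (by omega) j (by omega), (hgx j (by omega) j (by omega) i (by omega)).symm,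
        (hhx (j + 1) (by omega) j (by omega) i (by omega)).symm⟩
    · intro i hi j hj
      exact ⟨(hgw j (by omega) j (by omega) i (by omega)).symm,
        (hhw (j + 1) (by omega) j (by omega) i (by omega)).symm,
        hgh i (by omega) i (by omega) (j + 1) (by omega) j (by omega)⟩
    · intro i hi
      exact (hS0 _).2 (Or.inl ⟨i, by omega, rfl⟩)
    · intro i hi
      exact ⟨(hS0 _).2 (Or.inr (Or.inl ⟨i, hi, rfl⟩)),
        (hS0 _).2 (Or.inr (Or.inr (Or.inl ⟨i, hi, rfl⟩))),
        (hS0 _).2 (Or.inr (Or.inr (Or.inr ⟨i, hi, rfl⟩)))⟩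
  -- one more edge
  have e1 : EP G 1 (x (s - 1)) (w (s - 1)) {x (s - 1), w (s - 1), g (s - 1) (s - 1)} :=
    tools.single (hgrid.adj _ (by omega) _ (by omega)) (hg.adjx _ (by omega) _ (by omega))
      (hg.adjw _ (by omega) _ (by omega))
  have hw0 : w (s - 1) ∉ S0 := by
    rw [hS0]
    rintro (⟨i, hi, h1⟩ | ⟨i, hi, h1⟩ | ⟨i, hi, h1⟩ | ⟨i, hi, h1⟩)
    · exact hxw i (by omega) (s - 1) (by omega) h1
    · have := hgrid.injw i (by omega) (s - 1) (by omega) h1
      omega
    · exact hgw i (by omega) i (by omega) (s - 1) (by omega) h1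
    · exact hhw (i + 1) (by omega) i (by omega) (s - 1) (by omega) h1
  have hg0 : g (s - 1) (s - 1) ∉ S0 := by
    rw [hS0]
    rintro (⟨i, hi, h1⟩ | ⟨i, hi, h1⟩ | ⟨i, hi, h1⟩ | ⟨i, hi, h1⟩)
    · exact hgx (s - 1) (by omega) (s - 1) (by omega) i (by omega) h1.symm
    · exact hgw (s - 1) (by omega) (s - 1) (by omega) i (by omega) h1.symm
    · exact hg.di i (by omega) i (by omega) (s - 1) (by omega) (s - 1) (by omega)
        (by omega) (by omega) h1
    · exact hgh (s - 1) (by omega) (s - 1) (by omega) (i + 1) (by omega) i (by omega) h1.symm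
  let S1 : Finset V := S0 ∪ {x (s - 1), w (s - 1), g (s - 1) (s - 1)}
  have e2 : EP G (2 * (s - 1) + 1) (x 0) (w (s - 1)) S1 := by
    refine tools.trans e0 e1 ?_
    intro v hv
    rw [mem_inter] at hv
    obtain ⟨hv1, hv2⟩ := hv
    simp only [mem_insert, mem_singleton] at hv2 ⊢
    rcases hv2 with h1 | h1 | h1
    · exact h1
    · rw [h1] at hv1
      exact absurd hv1 hw0
    · rw [h1] at hv1
      exact absurd hv1 hg0
  have hcS1 : c ∉ S1 := by
    simp only [S1, mem_union, mem_insert, mem_singleton]
    rintro (h1 | h1 | h1 | h1)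
    · rw [hS0] at h1
      rcases h1 with ⟨i, hi, h1⟩ | ⟨i, hi, h1⟩ | ⟨i, hi, h1⟩ | ⟨i, hi, h1⟩
      · exact hxc i (by omega) h1
      · exact hwc i (by omega) h1
      · exact hgc' i (by omega) i (by omega) h1
      · exact hhc' (i + 1) (by omega) i (by omega) h1
    · exact hxc _ (by omega) h1.symm
    · exact hwc _ (by omega) h1.symm
    · exact hgc' _ (by omega) _ (by omega) h1.symm
  have hcard : S1.card ≤ 4 * s + 3 := by
    have h1 : S1.card ≤ S0.card + ({x (s - 1), w (s - 1), g (s - 1) (s - 1)} : Finset V).card :=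
      card_union_le _ _
    have h2 : ({x (s - 1), w (s - 1), g (s - 1) (s - 1)} : Finset V).card ≤ 3 := card_le_three
    have h3 : S0.card ≤ s + (s - 1) + (s - 1) + (s - 1) := by
      refine (card_union_le _ _).trans ?_
      refine add_le_add ((card_union_le _ _).trans ?_) (card_image_le.trans (by rw [card_range]))
      refine add_le_add ((card_union_le _ _).trans ?_) (card_image_le.trans (by rw [card_range]))
      exact add_le_add (card_image_le.trans (by rw [card_range]))
        (card_image_le.trans (by rw [card_range]))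
    omega
  -- common neighbours with the centre
  have hZx : ((range m).image x).card = m := by
    rw [card_image_of_injOn, card_range]
    intro i hi j hj hij
    exact hgrid.injx i (mem_range.1 hi) j (mem_range.1 hj) hij
  have hZw : ((range m).image w).card = m := by
    rw [card_image_of_injOn, card_range]
    intro i hi j hj hij
    exact hgrid.injw i (mem_range.1 hi) j (mem_range.1 hj) hij
  have hcnx : ∀ i < m, m ≤ (cn G (x i) c).card := by
    intro i hi
    rw [← hZw]
    refine card_le_card fun v hv => ?_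
    obtain ⟨j, hj, rfl⟩ := mem_image.1 hv
    rw [mem_range] at hj
    simp only [cn, mem_filter, mem_univ, true_and]
    exact ⟨hgrid.adj i hi j hj, (hc j hj).2.symm⟩
  have hcnw : ∀ j < m, m ≤ (cn G (w j) c).card := by
    intro j hj
    rw [← hZx]
    refine card_le_card fun v hv => ?_
    obtain ⟨i, hi, rfl⟩ := mem_image.1 hv
    rw [mem_range] at hi
    simp only [cn, mem_filter, mem_univ, true_and]
    exact ⟨(hgrid.adj i hi j hj).symm, (hc i hi).1.symm⟩
  -- the link
  obtain ⟨S', e3, hdis⟩ := link V G [c] ((range m).image x) (S1 \ {x 0, w (s - 1)})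
    (w (s - 1)) (x 0) m (List.nodup_singleton c) (by simp)
    (hxw 0 (by omega) (s - 1) (by omega)).symm
    (by simpa using hwc (s - 1) (by omega)) (by simpa using hxc 0 (by omega))
    (by simp) (by simp)
    (by
      intro d hd
      rw [List.mem_singleton] at hd
      subst hd
      exact fun h1 => hcS1 (mem_sdiff.1 h1).1)
    (by
      intro z hz d hd
      rw [List.mem_singleton] at hd
      subst hd
      obtain ⟨i, hi, rfl⟩ := mem_image.1 hz
      rw [mem_range] at hi
      exact ⟨(hc i hi).1, hcnx i hi⟩)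
    hZx.ge
    (by
      intro d hd
      simp only [List.head?_cons, Option.some.injEq] at hd
      subst hd
      exact ⟨(hc _ (by omega)).2, hcnw _ (by omega)⟩)
    (by
      intro d hd
      simp only [List.getLast?_singleton, Option.some.injEq] at hd
      subst hd
      exact ⟨(hc _ (by omega)).1, hcnx _ (by omega)⟩)
    (by
      have h1 : (S1 \ {x 0, w (s - 1)}).card ≤ S1.card := card_le_card sdiff_subset
      simp only [List.length_singleton]
      omega)
  have e4 : ECyc G (2 * (s - 1) + 1 + 2 * [c].length) := by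
    refine tools.close e2 e3 ?_ (by omega) (by simp)
    intro v hv
    rw [mem_inter] at hv
    by_contra hne
    exact (disjoint_left.1 hdis) (mem_sdiff.2 ⟨hv.1, hne⟩) hv.2
  have h5 : 2 * (s - 1) + 1 + 2 * [c].length = 2 * s + 1 := by
    simp only [List.length_singleton]
    omega
  rw [h5] at e4
  exact e4

end Pool.Agent.Helper89.Tri
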