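import Pool.Agent.Helper61.Tri.Goals2

/-!
# MP_5b3c48_co, packet INTER2
-/

set_option autoImplicit false

open Finset

namespace Pool.Agent.Helper89.Tri

open Pool.Agent.Helper61.Tri

open scoped Classical

theorem inter2 : Inter2 := by
  intro V _ H hV hyp
  by_cases h0 : ∃ S : Finset V, H.IsNClique 3 S
  swap
  · left
    obtain ⟨p, q, hpq⟩ := Fintype.exists_pair_of_one_lt_card (show 1 < Fintype.card V by omega)
    exact ⟨p, q, hpq, fun S hS => absurd ⟨S, hS⟩ h0⟩
  obtain ⟨S, hS⟩ := h0
  by_cases h1 : ∃ T : Finset V, H.IsNClique 3 T ∧ S ≠ T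
  swap
  · left
    obtain ⟨p, hp, q, hq, hpq⟩ := Finset.one_lt_card.1 (show 1 < S.card by rw [hS.card_eq]; omega)
    refine ⟨p, q, hpq, fun R hR => ?_⟩
    have h2 : S = R := by
      by_contra hne
      exact h1 ⟨R, hR, hne⟩
    rw [← h2]
    exact ⟨hp, hq⟩
  obtain ⟨T, hT, hST⟩ := h1
  have hST2 := hyp S T hS hT hST
  by_cases h2 : ∃ U : Finset V, H.IsNClique 3 U ∧ ¬ S ∩ T ⊆ U
  swap
  · left
    obtain ⟨p, hp, q, hq, hpq⟩ := Finset.one_lt_card.1 (show 1 < (S ∩ T).card by omega)
    refine ⟨p, q, hpq, fun R hR => ?_⟩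
    have h3 : S ∩ T ⊆ R := by
      by_contra hne
      exact h2 ⟨R, hR, hne⟩
    exact ⟨h3 hp, h3 hq⟩
  obtain ⟨U, hU, hUn⟩ := h2
  right
  -- a triangle outside `S ∪ T` contains `S ∩ T`
  have key : ∀ R : Finset V, H.IsNClique 3 R → ∀ e ∈ R, e ∉ S ∪ T → S ∩ T ⊆ R ∧
      R ⊆ insert e (S ∩ T) := by
    intro R hR e he heST
    rw [mem_union, not_or] at heST
    have hRS : R ≠ S := by
      rintro rfl
      exact heST.1 he
    have hRT : R ≠ T := by
      rintro rfl
      exact heST.2 he
    have e1 := hyp R S hR hS hRS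
    have e2 := hyp R T hR hT hRT
    have e3 : (R.erase e).card = 2 := by rw [card_erase_of_mem he, hR.card_eq]
    have e4 : R ∩ S = R.erase e := by
      refine eq_of_subset_of_card_le (fun v hv => ?_) (by omega)
      rw [mem_inter] at hv
      rw [mem_erase]
      refine ⟨?_, hv.1⟩
      rintro rfl
      exact heST.1 hv.2
    have e5 : R ∩ T = R.erase e := by
      refine eq_of_subset_of_card_le (fun v hv => ?_) (by omega)
      rw [mem_inter] at hv
      rw [mem_erase]
      refine ⟨?_, hv.1⟩
      rintro rfl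
      exact heST.2 hv.2
    have e6 : R.erase e = S ∩ T := by
      refine eq_of_subset_of_card_le (fun v hv => ?_) (by omega)
      rw [mem_inter]
      constructor
      · rw [← e4] at hv
        exact (mem_inter.1 hv).2
      · rw [← e5] at hv
        exact (mem_inter.1 hv).2
    constructor
    · rw [← e6]
      exact erase_subset _ _
    · rw [← e6]
      intro v hv
      by_cases hve : v = e
      · rw [hve]
        exact mem_insert_self _ _
      · exact mem_insert_of_mem (mem_erase.2 ⟨hve, hv⟩)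
  have hUST : U ⊆ S ∪ T := by
    intro e he
    by_contra hne
    exact hUn (key U hU e he hne).1
  refine ⟨S ∪ T, ?_, fun R hR => ?_⟩
  · have h3 := card_union_add_card_inter S T
    rw [hS.card_eq, hT.card_eq] at h3
    omega
  · intro e he
    by_contra hne
    obtain ⟨h3, h4⟩ := key R hR e he hne
    have hRU : R ≠ U := by
      rintro rfl
      exact hUn h3
    have h5 := hyp R U hR hU hRU
    have h6 : R ∩ U ⊆ (S ∩ T) ∩ U := by
      intro v hv
      rw [mem_inter] at hv ⊢
      refine ⟨?_, hv.2⟩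
      rcases mem_insert.1 (h4 hv.1) with h7 | h7
      · rw [h7] at hv
        exact absurd (hUST hv.2) hne
      · exact h7
    have h7 : (S ∩ T) ∩ U ⊆ S ∩ T := inter_subset_left
    have h8 : (S ∩ T) ∩ U = S ∩ T := by
      refine eq_of_subset_of_card_le h7 ?_
      have := card_le_card h6
      omega
    exact hUn (inter_eq_left.1 h8)

end Pool.Agent.Helper89.Tri
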