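import Pool.Agent.Helper61.Tri.Goals

/-!
# MP_5b3c48_co, packet MIXED
-/

set_option autoImplicit false

open Finset

namespace Pool.Agent.Helper89.Tri

open Pool.Agent.Helper61.Tri

open scoped Classical

theorem mixed : EPTools → SD → NoCenter → E6 → Mixed := by
  intro _ sd noc e6 s hs
  obtain ⟨N0, hN0⟩ := noc s hs
  set m : ℕ := max (40 * s + 100) N0 with hm
  have hm1 : 40 * s + 100 ≤ m := le_max_left _ _
  have hm2 : N0 ≤ m := le_max_right _ _
  have hm0 : 0 < m := by omega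
  obtain ⟨N, hN⟩ := sd 5 m
  refine ⟨N, 4 * s + 10, ?_⟩
  intro V _ G x w hgrid hyp
  -- the choice of `y`, `g`, `z`
  have hch : ∀ i j : ℕ, ∃ y g z : V, i < N → j < N →
      (G.Adj (x i) y ∧ G.Adj (w j) y ∧ 4 * s + 10 ≤ (cn G (x i) y).card) ∧
      (G.Adj (x i) g ∧ G.Adj (w j) g) ∧ (G.Adj y z ∧ G.Adj (w j) z) ∧
      x i ≠ z ∧ y ≠ g ∧ g ≠ z := by
    intro i j
    by_cases hij : i < N ∧ j < N
    · obtain ⟨hi, hj⟩ := hij
      obtain ⟨h1, y, h2, h3, h4, h5⟩ := hyp i hi j hj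
      obtain ⟨z, hz⟩ : ((cn G y (w j)).erase (x i)).Nonempty := by
        rw [← card_pos]
        have := pred_card_le_card_erase (s := cn G y (w j)) (a := x i)
        omega
      rw [mem_erase] at hz
      obtain ⟨hz1, hz2⟩ := hz
      simp only [cn, mem_filter, mem_univ, true_and] at hz2
      obtain ⟨g, hg⟩ : (((cn G (x i) (w j)).erase y).erase z).Nonempty := by
        rw [← card_pos]
        have e1 := pred_card_le_card_erase (s := cn G (x i) (w j)) (a := y)
        have e2 := pred_card_le_card_erase (s := (cn G (x i) (w j)).erase y) (a := z)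
        omega
      rw [mem_erase, mem_erase] at hg
      obtain ⟨hg1, hg2, hg3⟩ := hg
      simp only [cn, mem_filter, mem_univ, true_and] at hg3
      exact ⟨y, g, z, fun _ _ => ⟨⟨h2, h3, h4⟩, ⟨hg3.1, hg3.2⟩, ⟨hz2.1, hz2.2⟩, hz1.symm,
        hg2.symm, hg1⟩⟩
    · exact ⟨x 0, x 0, x 0, fun hi hj => absurd ⟨hi, hj⟩ hij⟩
  choose y g z hch using hch
  let f : Fin 5 → ℕ → ℕ → V := fun l i j => ![x i, w j, y i j, g i j, z i j] l
  have hf : ∀ i < N, ∀ j < N, ∀ l l', l ≠ l' → f l i j ≠ f l' i j := by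
    intro i hi j hj
    obtain ⟨⟨a1, a2, -⟩, ⟨a3, a4⟩, ⟨a5, a6⟩, a7, a8, a9⟩ := hch i j hi hj
    have hxw : x i ≠ w j := (hgrid.adj i hi j hj).ne
    have key : ∀ l l' : Fin 5, l < l' → f l i j ≠ f l' i j := by
      intro l l' hll
      fin_cases l <;> fin_cases l' <;> first
        | exact absurd hll (by decide)
        | exact hxw
        | exact a1.ne
        | exact a3.ne
        | exact a7
        | exact a2.ne
        | exact a4.ne
        | exact a6.ne
        | exact a8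
        | exact a5.ne
        | exact a9
    intro l l' hne
    rcases lt_or_gt_of_ne hne with h1 | h1
    · exact key l l' h1
    · exact (key l' l h1).symm
  obtain ⟨ρ, γ, hb, hinj, hcd, hDD⟩ := hN V f hf
  -- the subgrid
  have hgrid' : Grid G m (fun i => x (ρ i)) (fun j => w (γ j)) := by
    refine ⟨fun i hi j hj => hgrid.adj _ (hb i hi).1 _ (hb j hj).2, ?_, ?_⟩
    · intro i hi j hj hij
      by_contra hne
      exact (hinj i hi j hj hne).1 (hgrid.injx _ (hb i hi).1 _ (hb j hj).1 hij)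
    · intro i hi j hj hij
      by_contra hne
      exact (hinj i hi j hj hne).2 (hgrid.injw _ (hb i hi).2 _ (hb j hj).2 hij)
  have hcen : ∀ c : V, Center G m (fun i => x (ρ i)) (fun j => w (γ j)) c → Has Kind.Co s G := by
    intro c hc
    refine hN0 V G (fun i => x (ρ i)) (fun j => w (γ j)) c ?_ ?_ ?_
    · exact ⟨fun i hi j hj => hgrid'.adj i (by omega) j (by omega),
        fun i hi j hj => hgrid'.injx i (by omega) j (by omega),
        fun i hi j hj => hgrid'.injw i (by omega) j (by omega)⟩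
    · intro i hi j hj
      exact (hyp _ (hb i (by omega)).1 _ (hb j (by omega)).2).1
    · intro i hi
      exact hc i (by omega)
  have hcy : (∀ i < m, ∀ j < m, ∀ i' < m, ∀ j' < m, y (ρ i) (γ j) = y (ρ i') (γ j')) →
      Has Kind.Co s G := by
    intro h
    refine hcen (y (ρ 0) (γ 0)) fun i hi => ⟨?_, ?_⟩
    · rw [← h i hi 0 hm0 0 hm0 0 hm0]
      exact (hch _ _ (hb i hi).1 (hb 0 hm0).2).1.1
    · rw [← h 0 hm0 i hi 0 hm0 0 hm0]
      exact (hch _ _ (hb 0 hm0).1 (hb i hi).2).1.2.1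
  have hcg : (∀ i < m, ∀ j < m, ∀ i' < m, ∀ j' < m, g (ρ i) (γ j) = g (ρ i') (γ j')) →
      Has Kind.Co s G := by
    intro h
    refine hcen (g (ρ 0) (γ 0)) fun i hi => ⟨?_, ?_⟩
    · rw [← h i hi 0 hm0 0 hm0 0 hm0]
      exact (hch _ _ (hb i hi).1 (hb 0 hm0).2).2.1.1
    · rw [← h 0 hm0 i hi 0 hm0 0 hm0]
      exact (hch _ _ (hb 0 hm0).1 (hb i hi).2).2.1.2
  rcases hcd 2 with h2 | h2
  · exact hcy h2
  rcases hcd 3 with h3 | h3
  · exact hcg h3
  -- apex functions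
  have hay : Apex G m (fun i => x (ρ i)) (fun j => w (γ j)) (fun i j => y (ρ i) (γ j)) :=
    ⟨fun i hi j hj => (hch _ _ (hb i hi).1 (hb j hj).2).1.1,
      fun i hi j hj => (hch _ _ (hb i hi).1 (hb j hj).2).1.2.1, h2,
      hDD 2 0 (by decide), hDD 2 1 (by decide)⟩
  have hag : Apex G m (fun i => x (ρ i)) (fun j => w (γ j)) (fun i j => g (ρ i) (γ j)) :=
    ⟨fun i hi j hj => (hch _ _ (hb i hi).1 (hb j hj).2).2.1.1,
      fun i hi j hj => (hch _ _ (hb i hi).1 (hb j hj).2).2.1.2, h3,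
      hDD 3 0 (by decide), hDD 3 1 (by decide)⟩
  obtain ⟨S, hS1, hS2, -⟩ := e6 s hs V G m _ _ hm1 hgrid' _ _ (fun i j => z (ρ i) (γ j)) hay hag
    (hDD 2 3 (by decide))
    (fun i hi j hj => (hch _ _ (hb i hi).1 (hb j hj).2).2.2.1)
    (hDD 4 0 (by decide)) (hDD 4 1 (by decide)) (hDD 4 2 (by decide)) (hDD 4 3 (by decide))
  have hfin := (hch _ _ (hb 0 hm0).1 (hb 0 hm0).2).1
  obtain ⟨a, ha⟩ : (cn G (x (ρ 0)) (y (ρ 0) (γ 0)) \ S).Nonempty := by
    rw [← card_pos]
    have := le_card_sdiff S (cn G (x (ρ 0)) (y (ρ 0) (γ 0)))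
    have h5 := hfin.2.2
    omega
  rw [mem_sdiff] at ha
  obtain ⟨ha1, ha2⟩ := ha
  simp only [cn, mem_filter, mem_univ, true_and] at ha1
  exact ⟨_, _, a, S, hS1, hfin.1, ha1.1, ha1.2, ha2⟩

end Pool.Agent.Helper89.Tri
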